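import Pool.Agent.W442.SN.Base
import Pool.Agent.W308.SV.Loc

/-!
SN-TUBE: the patch and the tube have the same initial forms.
-/

set_option autoImplicit false

open MvPolynomial

namespace Pool.Agent.W410.SN

open Pool.Agent.W442.SV Pool.Agent.W442.SN Pool.Agent.W308.SV

/-! ### Borel group and Schubert varieties -/

theorem borel_mul {n : ℕ} {a b : Matrix (Fin n) (Fin n) ℂ} (ha : a ∈ borel n) (hb : b ∈ borel n) :
    a * b ∈ borel n := by
  refine ⟨?_, ?_⟩
  · rw [Matrix.det_mul]
    exact ha.1.mul hb.1
  · intro i j hij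
    rw [Matrix.mul_apply]
    apply Finset.sum_eq_zero
    intro k _
    rcases lt_or_ge k i with h | h
    · rw [ha.2 i k h, zero_mul]
    · rw [hb.2 k j (lt_of_lt_of_le hij h), mul_zero]

theorem borel_inv {n : ℕ} {b : Matrix (Fin n) (Fin n) ℂ} (hb : b ∈ borel n) :
    b⁻¹ ∈ borel n := by
  have hinv : Invertible b := Matrix.invertibleOfIsUnitDet b hb.1
  have h1 : b.BlockTriangular id := fun i j hij => hb.2 i j hij
  have h2 := Matrix.blockTriangular_inv_of_blockTriangular h1
  exact ⟨Matrix.isUnit_nonsing_inv_det b hb.1, fun i j hij => h2 hij⟩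

theorem schubert_left {n : ℕ} (w : Equiv.Perm (Fin n)) {g b : Matrix (Fin n) (Fin n) ℂ}
    (hb : b ∈ borel n) (hg : g ∈ schubert w) : b * g ∈ schubert w := by
  intro f hf
  have key : ∀ h : Matrix (Fin n) (Fin n) ℂ,
      eval (fun p : Fin n × Fin n => h p.1 p.2)
        (aeval (fun p : Fin n × Fin n =>
          (∑ j, C (b p.1 j) * X (j, p.2) : MvPolynomial (Fin n × Fin n) ℂ)) f) =
      eval (fun p => (b * h) p.1 p.2) f := by
    intro h
    have h2 : ((eval (fun p : Fin n × Fin n => h p.1 p.2)).comp
        (aeval (fun p : Fin n × Fin n =>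
          (∑ j, C (b p.1 j) * X (j, p.2) : MvPolynomial (Fin n × Fin n) ℂ))).toRingHom) =
        eval (fun p => (b * h) p.1 p.2) := by
      apply MvPolynomial.ringHom_ext
      · intro r
        simp
      · intro p
        simp [Matrix.mul_apply]
    exact RingHom.congr_fun h2 f
  rw [← key g]
  apply hg
  rintro h ⟨b1, hb1, b2, hb2, rfl⟩
  rw [key]
  exact hf _ ⟨b * b1, borel_mul hb hb1, b2, hb2, by simp only [Matrix.mul_assoc]⟩

/-! ### The map `φ` -/

section
variable {n : ℕ}

/-- The strictly lower triangular matrix. -/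
def hat (x : Low n → ℂ) : Matrix (Fin n) (Fin n) ℂ :=
  Matrix.of fun i j => if h : j < i then x ⟨(i, j), h⟩ else 0

theorem uni_hat (x : Low n → ℂ) : uni x = 1 + hat x := by
  ext i j
  rw [Matrix.add_apply, uni, hat, Matrix.of_apply, Matrix.of_apply, Matrix.one_apply]
  split_ifs with h1 h2
  · exact absurd h2 (by rw [h1]; exact lt_irrefl _)
  · rw [add_zero]
  · rw [zero_add]
  · rw [zero_add]

theorem hat_apply_not {x : Low n → ℂ} {i j : Fin n} (h : ¬ j < i) : hat x i j = 0 := by
  rw [hat, Matrix.of_apply, dif_neg h]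

theorem hat_apply {x : Low n → ℂ} {i j : Fin n} (h : j < i) : hat x i j = x ⟨(i, j), h⟩ := by
  rw [hat, Matrix.of_apply, dif_pos h]

variable (v : Equiv.Perm (Fin n))

/-- the coordinates at the inversions -/
def cc (y : Low n → ℂ) : Low n → ℂ := fun i => if v i.1.2 < v i.1.1 then 0 else y i

/-- the product part -/
noncomputable def gg (y : Low n → ℂ) (i : Low n) : ℂ :=
  ∑ j : Fin n, hat (cc v y) i.1.1 j * hat (slice v y) j i.1.2

/-- the map on points -/
noncomputable def phi (y : Low n → ℂ) : Low n → ℂ := fun i => y i + gg v y i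

theorem uni_phi (y : Low n → ℂ) : uni (phi v y) = (1 + hat (cc v y)) * uni (slice v y) := by
  rw [uni_hat, uni_hat]
  ext i j
  rw [add_mul, one_mul, mul_add, mul_one, Matrix.add_apply, Matrix.add_apply, Matrix.add_apply,
    Matrix.add_apply, Matrix.mul_apply]
  by_cases h : j < i
  · rw [hat_apply h, hat_apply h, hat_apply h]
    unfold phi gg
    have h1 : slice v y ⟨(i, j), h⟩ + cc v y ⟨(i, j), h⟩ = y ⟨(i, j), h⟩ := by
      unfold slice cc
      split_ifs
      · rw [add_zero]
      · rw [zero_add]
    rw [← h1]
    ring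
  · rw [hat_apply_not h, hat_apply_not h, hat_apply_not h]
    have h1 : ∑ k, hat (cc v y) i k * hat (slice v y) k j = 0 := by
      refine Finset.sum_eq_zero fun k _ => ?_
      by_cases h2 : k < i
      · rw [hat_apply_not (x := slice v y) (i := k) (j := j) (fun h3 => h (lt_trans h3 h2)),
          mul_zero]
      · rw [hat_apply_not h2, zero_mul]
    rw [h1]
    ring

theorem bb_mem (y : Low n → ℂ) :
    (Matrix.submatrix (1 + hat (cc v y)) v.symm v.symm) ∈ borel n := by
  refine ⟨?_, ?_⟩
  · rw [Matrix.det_submatrix_equiv_self, ← uni_hat, det_uni]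
    exact isUnit_one
  · intro i j hij
    rw [Matrix.submatrix_apply, Matrix.add_apply, Matrix.one_apply, if_neg, zero_add]
    · by_cases h1 : v.symm j < v.symm i
      · rw [hat_apply h1]
        unfold cc
        rw [if_pos]
        simpa using hij
      · exact hat_apply_not h1
    · intro h1
      exact hij.ne' (v.symm.injective h1)

theorem chart_phi (y : Low n → ℂ) : chart v (phi v y) =
    Matrix.submatrix (1 + hat (cc v y)) v.symm v.symm * chart v (slice v y) := by
  ext a k
  rw [chart_apply, uni_phi, Matrix.mul_apply, Matrix.mul_apply]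
  rw [← Equiv.sum_comp v.symm]
  apply Finset.sum_congr rfl
  intro j _
  rw [chart_apply, Matrix.submatrix_apply]

theorem phi_mem (w : Equiv.Perm (Fin n)) (y : Low n → ℂ) :
    phi v y ∈ patch v w ↔ y ∈ tube v w := by
  have hb := bb_mem v y
  constructor
  · intro h
    have h1 : chart v (phi v y) ∈ schubert w := h
    rw [chart_phi] at h1
    have h2 := schubert_left w (borel_inv hb) h1
    rw [← Matrix.mul_assoc, Matrix.nonsing_inv_mul _ hb.1, one_mul] at h2
    exact h2
  · intro h
    show chart v (phi v y) ∈ schubert w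
    rw [chart_phi]
    exact schubert_left w hb h

/-! ### The algebra map -/

/-- generic strictly lower triangular matrix with some entries set to zero -/
noncomputable def hatX (P : Low n → Prop) [DecidablePred P] (i j : Fin n) :
    MvPolynomial (Low n) ℂ :=
  if h : j < i then (if P ⟨(i, j), h⟩ then X ⟨(i, j), h⟩ else 0) else 0

/-- the product part -/
noncomputable def GG (i : Low n) : MvPolynomial (Low n) ℂ :=
  ∑ j : Fin n, hatX (fun i : Low n => ¬ v i.1.2 < v i.1.1) i.1.1 j *
    hatX (fun i : Low n => v i.1.2 < v i.1.1) j i.1.2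

/-- the algebra map -/
noncomputable def F : MvPolynomial (Low n) ℂ →ₐ[ℂ] MvPolynomial (Low n) ℂ :=
  aeval (fun i => X i + GG v i)

theorem F_X (i : Low n) : F v (X i) = X i + GG v i := by
  unfold F
  rw [aeval_X]

theorem eval_GG (y : Low n → ℂ) (i : Low n) : eval y (GG v i) = gg v y i := by
  unfold GG gg
  rw [map_sum]
  refine Finset.sum_congr rfl fun j _ => ?_
  rw [map_mul]
  congr 1
  · unfold hatX
    by_cases h : j < i.1.1
    · rw [dif_pos h, hat_apply h]
      unfold cc
      by_cases h1 : v j < v i.1.1
      · rw [if_neg (not_not.mpr h1), if_pos h1, map_zero]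
      · rw [if_pos h1, if_neg h1, eval_X]
    · rw [dif_neg h, hat_apply_not h, map_zero]
  · unfold hatX
    by_cases h : i.1.2 < j
    · rw [dif_pos h, hat_apply h]
      unfold slice
      by_cases h1 : v i.1.2 < v j
      · rw [if_pos h1, if_pos h1, eval_X]
      · rw [if_neg h1, if_neg h1, map_zero]
    · rw [dif_neg h, hat_apply_not h, map_zero]

theorem eval_F (y : Low n → ℂ) (f : MvPolynomial (Low n) ℂ) :
    eval y (F v f) = eval (phi v y) f := by
  have h2 : ((eval y).comp (F v).toRingHom) = eval (phi v y) := by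
    apply MvPolynomial.ringHom_ext
    · intro r
      simp
    · intro p
      show eval y (F v (X p)) = _
      rw [F_X, map_add, eval_X, eval_X, eval_GG]
      rfl
  exact RingHom.congr_fun h2 f

/-- the map is surjective -/
theorem F_surj : Function.Surjective (F v) := by
  have key : ∀ (m : ℕ) (i : Low n), (i.1.1 : ℕ) - (i.1.2 : ℕ) ≤ m →
      (X i : MvPolynomial (Low n) ℂ) ∈ (F v).range := by
    intro m
    induction m with
    | zero =>
      intro i hi
      have := i.2
      exact absurd (Fin.lt_def.mp this) (by omega)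
    | succ m ih =>
      intro i hi
      have h1 : (X i : MvPolynomial (Low n) ℂ) = F v (X i) - GG v i := by
        rw [F_X]; ring
      rw [h1]
      refine sub_mem ⟨X i, rfl⟩ ?_
      unfold GG
      refine sum_mem fun j _ => ?_
      by_cases ha : j < i.1.1
      · by_cases hb : i.1.2 < j
        · refine mul_mem ?_ ?_
          · unfold hatX
            rw [dif_pos ha]
            split_ifs
            · refine ih _ ?_
              have := Fin.lt_def.mp ha
              have := Fin.lt_def.mp hb
              simp only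
              omega
            · exact zero_mem _
          · unfold hatX
            rw [dif_pos hb]
            split_ifs
            · refine ih _ ?_
              have := Fin.lt_def.mp ha
              have := Fin.lt_def.mp hb
              simp only
              omega
            · exact zero_mem _
        · unfold hatX
          rw [dif_neg hb, mul_zero]
          exact zero_mem _
      · unfold hatX
        rw [dif_neg ha, zero_mul]
        exact zero_mem _
  intro f
  have h2 : (F v).range = ⊤ := by
    rw [eq_top_iff, ← MvPolynomial.adjoin_range_X (σ := Low n) (R := ℂ), Algebra.adjoin_le_iff]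
    rintro _ ⟨i, rfl⟩
    exact key _ i le_rfl
  have h3 : f ∈ (F v).range := h2 ▸ Algebra.mem_top
  exact h3

/-! ### The filtration -/

theorem X_mem (i : Low n) : (X i : MvPolynomial (Low n) ℂ) ∈ originIdeal (Low n) := by
  rw [originIdeal, RingHom.mem_ker, eval_X]
  rfl

theorem hatX_mem (P : Low n → Prop) [DecidablePred P] (i j : Fin n) :
    hatX P i j ∈ originIdeal (Low n) := by
  unfold hatX
  split_ifs
  · exact X_mem _
  · exact zero_mem _
  · exact zero_mem _

theorem GG_mem (i : Low n) : GG v i ∈ originIdeal (Low n) ^ 2 := by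
  unfold GG
  refine sum_mem fun j _ => ?_
  rw [sq]
  exact Ideal.mul_mem_mul (hatX_mem _ _ _) (hatX_mem _ _ _)

theorem pow_le {i j : ℕ} (h : i ≤ j) : originIdeal (Low n) ^ j ≤ originIdeal (Low n) ^ i :=
  Ideal.pow_le_pow_right h

theorem F_zero (f : MvPolynomial (Low n) ℂ) : F v f - f ∈ originIdeal (Low n) := by
  rw [originIdeal, RingHom.mem_ker, map_sub, eval_F]
  have : phi v (0 : Low n → ℂ) = 0 := by
    funext i
    unfold phi
    rw [← eval_GG]
    have h := Ideal.pow_le_self two_ne_zero (GG_mem v i)
    rw [originIdeal, RingHom.mem_ker] at h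
    rw [h]
    simp
  rw [this, sub_self]

theorem F_mem {f : MvPolynomial (Low n) ℂ} (hf : f ∈ originIdeal (Low n)) :
    F v f ∈ originIdeal (Low n) := by
  have := add_mem (F_zero v f) hf
  rwa [sub_add_cancel] at this

theorem F_one {f : MvPolynomial (Low n) ℂ} (hf : f ∈ originIdeal (Low n)) :
    F v f - f ∈ originIdeal (Low n) ^ 2 := by
  rw [origin_eq] at hf
  unfold idealOfVars at hf
  refine Submodule.span_induction ?_ ?_ ?_ ?_ hf
  · rintro _ ⟨i, rfl⟩
    rw [F_X, add_sub_cancel_left]
    exact GG_mem v i
  · rw [map_zero, sub_zero]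
    exact zero_mem _
  · intro x y _ _ hx hy
    have : F v (x + y) - (x + y) = (F v x - x) + (F v y - y) := by rw [map_add]; ring
    rw [this]
    exact add_mem hx hy
  · intro a x hx' hx
    have hx'' : x ∈ originIdeal (Low n) := by
      rw [origin_eq]
      exact hx'
    have : F v (a • x) - a • x = (F v a - a) * F v x + a * (F v x - x) := by
      rw [smul_eq_mul, map_mul]; ring
    rw [this]
    refine add_mem ?_ (Ideal.mul_mem_left _ _ hx)
    rw [sq]
    exact Ideal.mul_mem_mul (F_zero v a) (F_mem v hx'')

theorem F_pow (j : ℕ) {f : MvPolynomial (Low n) ℂ} (hf : f ∈ originIdeal (Low n) ^ j) :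
    F v f - f ∈ originIdeal (Low n) ^ (j + 1) := by
  induction j generalizing f with
  | zero =>
    rw [zero_add, pow_one]
    exact F_zero v f
  | succ j ih =>
    rw [pow_succ] at hf
    refine Submodule.mul_induction_on hf ?_ ?_
    · intro a ha b hb
      have : F v (a * b) - a * b = (F v a - a) * F v b + a * (F v b - b) := by
        rw [map_mul]; ring
      rw [this]
      refine add_mem ?_ ?_
      · rw [pow_succ]
        exact Ideal.mul_mem_mul (ih ha) (F_mem v hb)
      · have h1 := Ideal.mul_mem_mul ha (F_one v hb)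
        rwa [← pow_add] at h1
    · intro x y hx hy
      have : F v (x + y) - (x + y) = (F v x - x) + (F v y - y) := by rw [map_add]; ring
      rw [this]
      exact add_mem hx hy

theorem F_refl (j : ℕ) {f : MvPolynomial (Low n) ℂ} (hf : F v f ∈ originIdeal (Low n) ^ j) :
    f ∈ originIdeal (Low n) ^ j := by
  induction j with
  | zero => simp
  | succ j ih =>
    have h1 := ih (pow_le (Nat.le_succ j) hf)
    have h2 := sub_mem hf (F_pow v j h1)
    rwa [sub_sub_cancel] at h2

theorem F_inj : Function.Injective (F v) := by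
  rw [injective_iff_map_eq_zero]
  intro f hf
  ext s
  rw [coeff_zero]
  have h1 : F v f ∈ originIdeal (Low n) ^ (s.degree + 1) := by
    rw [hf]; exact zero_mem _
  exact (mem_origin_pow _ f).mp (F_refl v _ h1) s (Nat.lt_succ_self _)

/-- `φ` is surjective on points -/
theorem phi_surj : Function.Surjective (phi v) := by
  intro x
  choose G hG using fun i : Low n => F_surj v (X i)
  refine ⟨fun i => eval x (G i), ?_⟩
  set y : Low n → ℂ := fun i => eval x (G i) with hy
  -- evaluation at `y` is evaluation at `x` of the inverse map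
  have h1 : ∀ f : MvPolynomial (Low n) ℂ, eval y f = eval x (aeval G f) := by
    intro f
    have h2 : eval y = (eval x).comp (aeval G : MvPolynomial (Low n) ℂ →ₐ[ℂ] _).toRingHom := by
      apply MvPolynomial.ringHom_ext
      · intro r
        simp
      · intro p
        simp [hy]
    exact RingHom.congr_fun h2 f
  have h3 : ∀ f : MvPolynomial (Low n) ℂ, F v (aeval G f) = f := by
    intro f
    have h4 : (F v).comp (aeval G) = AlgHom.id ℂ (MvPolynomial (Low n) ℂ) := by
      apply MvPolynomial.algHom_ext
      intro i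
      rw [AlgHom.comp_apply, aeval_X, hG]
      rfl
    exact AlgHom.congr_fun h4 f
  have h5 : ∀ f : MvPolynomial (Low n) ℂ, aeval G (F v f) = f := fun f =>
    F_inj v (h3 (F v f))
  funext i
  have h6 := eval_F v y (X i)
  rw [h1, h5, eval_X, eval_X] at h6
  exact h6.symm

theorem main' (w : Equiv.Perm (Fin n)) (i : ℕ) (f : MvPolynomial (Low n) ℂ) :
    Init (vanishingIdeal ℂ (patch v w)) i f ↔ Init (vanishingIdeal ℂ (tube v w)) i f := by
  constructor
  · rintro ⟨hf, g, hg, hfg⟩
    refine ⟨hf, F v f - f + F v g, ?_, ?_⟩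
    · refine add_mem (F_pow v i (homog_mem hf)) ?_
      have h1 := add_mem (pow_le (Nat.le_succ (i + 1)) (F_pow v (i + 1) hg)) hg
      rwa [sub_add_cancel] at h1
    · have h2 : f + (F v f - f + F v g) = F v (f + g) := by rw [map_add]; ring
      rw [h2, mem_vanishingIdeal_iff]
      intro y hy
      have h3 := mem_vanishingIdeal_iff.mp hfg (phi v y) ((phi_mem v w y).mpr hy)
      have h4 : eval y (F v (f + g)) = 0 := by
        rw [eval_F]
        exact h3
      exact h4
  · rintro ⟨hf, g, hg, hfg⟩
    obtain ⟨h, hh⟩ := F_surj v (f + g)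
    have h1 : h ∈ originIdeal (Low n) ^ i := by
      refine F_refl v i ?_
      rw [hh]
      exact add_mem (homog_mem hf) (pow_le (Nat.le_succ i) hg)
    refine ⟨hf, g - (F v h - h), sub_mem hg (F_pow v i h1), ?_⟩
    have h2 : f + (g - (F v h - h)) = h := by rw [hh]; ring
    rw [h2, mem_vanishingIdeal_iff]
    intro x hx
    obtain ⟨y, rfl⟩ := phi_surj v x
    have h3 := mem_vanishingIdeal_iff.mp hfg y ((phi_mem v w y).mp hx)
    have h4 : eval (phi v y) h = 0 := by
      rw [← eval_F, hh]
      exact h3
    exact h4

end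

theorem main : S_tube := fun _ v w i f => main' v w i f

end Pool.Agent.W410.SN
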